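import Pool.Agent.Work.MP_55ae8f_al.Family

set_option autoImplicit false

/-!
For every `n ≥ 1` the extraspecial group of exponent `3` and order `3 ^ (6 n + 3)` has a partition
into subgroups of order `27`, exactly one of which is not abelian.
-/

namespace Pool.Agent.Results.MP_55ae8f_al.InfiniteFamily

/-- `P` is a partition of the group `G`: it has at least two members, all of them nontrivial proper
subgroups, and every non-identity element of `G` lies in exactly one member of `P`. -/
structure IsPartition {G : Type} [Group G] (P : Finset (Subgroup G)) : Prop where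
  two_le_card : 2 ≤ P.card
  ne_bot : ∀ H ∈ P, H ≠ ⊥
  ne_top : ∀ H ∈ P, H ≠ ⊤
  existsUnique : ∀ g : G, g ≠ 1 → ∃! H : Subgroup G, H ∈ P ∧ g ∈ H

open Pool.Agent.Work.MP_55ae8f_al

theorem result (n : ℕ) (hn : 1 ≤ n) :
    ∃ (G : Type) (_ : Group G) (P : Finset (Subgroup G)),
      Finite G ∧ Nat.card G = 3 ^ (6 * n + 3) ∧ Monoid.exponent G = 3 ∧
      commutator G = Subgroup.center G ∧ Nat.card (Subgroup.center G) = 3 ∧
      IsPartition P ∧ (∀ H ∈ P, Nat.card H = 27) ∧ P.card = (3 ^ (6 * n + 3) - 1) / 26 ∧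
      ∃! H : Subgroup G, H ∈ P ∧ ¬ ∀ x ∈ H, ∀ y ∈ H, x * y = y * x := by
  have hcard : (Fam.P n).card * 26 = 3 ^ (6 * n + 3) - 1 := by
    have h := Fam.card_mul (Fam.P n) 27 Fam.exists_unique (fun H hH => Fam.card_of_mem_P hH)
    rw [Fam.card_E] at h
    exact h
  have hbig : 3 ^ 9 ≤ 3 ^ (6 * n + 3) := Nat.pow_le_pow_right (by norm_num) (by omega)
  refine ⟨Fam.E n, inferInstance, Fam.P n, inferInstance, Fam.card_E, ?_,
    Fam.commutator_eq_center, Fam.card_center, ⟨?_, ?_, ?_, Fam.exists_unique⟩,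
    fun H hH => Fam.card_of_mem_P hH, ?_, ?_⟩
  · refine ((Nat.dvd_prime Nat.prime_three).mp
      (Monoid.exponent_dvd_of_forall_pow_eq_one Fam.pow_three)).resolve_left ?_
    intro h
    have h1 := Monoid.exp_eq_one_iff.mp h
    have h2 : Nat.card (Fam.E n) = 1 := Nat.card_unique
    rw [Fam.card_E] at h2
    omega
  · omega
  · rintro H hH rfl
    have h := Fam.card_of_mem_P hH
    rw [Subgroup.card_bot] at h
    exact absurd h (by norm_num)
  · rintro H hH rfl
    have h := Fam.card_of_mem_P hH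
    rw [Subgroup.card_top, Fam.card_E] at h
    omega
  · omega
  · refine ⟨Fam.H0 n, ⟨Fam.mem_P.mpr (Or.inl rfl), ?_⟩, ?_⟩
    · intro h
      obtain ⟨g, hg, k, hk, hne⟩ := Fam.not_comm_H0 (n := n)
      exact hne (h g hg k hk)
    · rintro H ⟨hH, hne⟩
      by_contra hne'
      exact hne (Fam.comm_of_ne hH hne')

end Pool.Agent.Results.MP_55ae8f_al.InfiniteFamily
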